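import Pool.Agent.Work.MP_8f87b2_base.Leg

/-!
MP_8f87b2_co, LIFT: a legal permutation `π` of the Dyck words whose product `TT * π` has no cycle of length at most two
through a moved word gives a spanning 2-regular subgraph of the odd graph, invariant under all shifts, with at most
`(2 k + 1) * #S` connected components, where `S` meets every cycle of `TT * π`.
-/

namespace Pool.OddHC

open Finset BinaryTree Equiv Pool.Agent.Work.MP_8f87b2_co

variable {k : ℕ}

/-- the vertex with word `w` and star at `s` -/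
def vtx (w : X k) (s : ZMod (2 * k + 1)) : V k := ⟨io w s, io_card w s⟩

theorem vtx_inj {w w' : X k} {s s' : ZMod (2 * k + 1)} (h : vtx w s = vtx w' s') : w = w' ∧ s = s' :=
  io_inj (congrArg Subtype.val h)

theorem vtx_surj (A : V k) : ∃ w s, vtx w s = A := by
  obtain ⟨w, s, h⟩ := io_surj A.2
  exact ⟨w, s, Subtype.ext h⟩

theorem shift_vtx (t : ZMod (2 * k + 1)) (w : X k) (s : ZMod (2 * k + 1)) :
    shift k t (vtx w s) = vtx w (s + t) := by
  apply Subtype.ext
  ext j
  rw [mem_shift]
  unfold vtx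
  simp only
  rw [io_shift, mem_image]
  constructor
  · intro h
    exact ⟨j - t, h, by ring⟩
  · rintro ⟨i, hi, rfl⟩
    have : i + t - t = i := by ring
    rw [this]
    exact hi

/-- the position after the star is an up step -/
theorem one_mem_io (hk : 1 ≤ k) (w : X k) (s : ZMod (2 * k + 1)) : s + 1 ∈ io w s := by
  unfold io
  rw [mem_st, add_sub_cancel_left]
  have h1 : (1 : ZMod (2 * k + 1)).val = 1 := by
    have : Fact (1 < 2 * k + 1) := ⟨by omega⟩
    exact ZMod.val_one _
  rw [h1]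
  obtain ⟨t, ht⟩ := w
  cases t with
  | nil =>
    rw [mem_treesOfNumNodesEq] at ht
    simp [BinaryTree.numNodes] at ht
    omega
  | node _ A B => rfl

theorem star_not_mem (w : X k) (s : ZMod (2 * k + 1)) : s ∉ io w s := by
  unfold io
  rw [mem_st, sub_self, ZMod.val_zero]
  unfold sl
  simp

/-- `T ^ 2` moves every vertex -/
theorem T_two (hk : 1 ≤ k) (w : X k) (h : TT (TT w) = w) : Vo w + Vo (TT w) ≠ 0 := by
  intro h0
  have h1 := TF_spec w 0
  have h2 := TF_spec (TT w) (Vo w)
  rw [← TT_apply, zero_add] at h1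
  rw [← TT_apply, h, h0] at h2
  have h3 := compl_cw w 0
  have h4 := compl_cw (TT w) (Vo w)
  rw [← h2, h1] at h4
  -- h4 : insert (Vo w) (io w 0) = univ \ st (cw w) 0
  have h5 : Vo w = 0 := by
    have h6 : (0 : ZMod (2 * k + 1)) ∈ insert (Vo w) (io w 0) := by
      rw [h4, mem_sdiff]
      refine ⟨mem_univ _, ?_⟩
      rw [mem_st, sub_self, ZMod.val_zero]
      unfold cw
      simp
    rw [mem_insert] at h6
    rcases h6 with h6 | h6
    · exact h6.symm
    · exact (star_not_mem w 0 h6).elim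
  have h7 := one_mem_io hk (TT w) (Vo w)
  have h8 := one_mem_io hk w 0
  have h9 := TT_disj w 0
  rw [zero_add, disjoint_left] at h9
  rw [h5] at h7 h9
  exact h9 h8 h7

/-- one step of the walk: `w` at `s` is adjacent to `TT (π w)` at `s + (z w + Vo (π w))` -/
theorem vtx_adj (hk : 1 ≤ k) {w u : X k} {z : ZMod (2 * k + 1)} (h : Le w u z)
    (s : ZMod (2 * k + 1)) :
    (oddGraph k).Adj (vtx w s) (vtx (TT u) (s + (z + Vo u))) := by
  have h1 : Disjoint (io w s) (io (TT u) (s + (z + Vo u))) := by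
    rw [← add_assoc]
    exact h.disj s
  refine ⟨?_, h1⟩
  intro h3
  have h4 := congrArg Subtype.val h3
  unfold vtx at h4
  simp only at h4
  rw [← h4] at h1
  have h5 : io w s = ∅ := by
    rw [disjoint_self_iff_empty] at h1
    exact h1
  have h6 := io_card w s
  rw [h5, card_empty] at h6
  omega

/-- the graph of an irreflexive relation -/
def symG {W : Type*} (R : W → W → Prop) (h : ∀ A, ¬ R A A) : SimpleGraph W where
  Adj A B := R A B ∨ R B A
  symm := ⟨fun _ _ h => h.symm⟩
  loopless := ⟨fun A h' => h'.elim (h A) (h A)⟩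

theorem symG_adj {W : Type*} {R : W → W → Prop} {h : ∀ A, ¬ R A A} {A B : W} :
    (symG R h).Adj A B ↔ R A B ∨ R B A := Iff.rfl

/-- LIFT -/
theorem lift_factor (hk : 1 ≤ k) (π : Perm (X k)) (z : X k → ZMod (2 * k + 1))
    (hleg : Legal π z)
    (h2 : ∀ w, (TT * π : Perm (X k)) ((TT * π : Perm (X k)) w) = w → π w = w ∧ z w = 0)
    (S : Finset (X k)) (hS : ∀ w, ∃ r ∈ S, (TT * π : Perm (X k)).SameCycle r w) :
    ∃ H : SimpleGraph (V k), H ≤ oddGraph k ∧ (∀ A, Nat.card (H.neighborSet A) = 2) ∧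
      (∀ t A B, H.Adj (shift k t A) (shift k t B) ↔ H.Adj A B) ∧
      Nat.card H.ConnectedComponent ≤ (2 * k + 1) * S.card ∧
      ∃ S' : Finset (V k), S'.card ≤ S.card ∧
        ∀ A, ∃ B ∈ S', ∃ t, H.Reachable A (shift k t B) := by
  classical
  obtain ⟨σ, hσ⟩ : ∃ σ : Perm (X k), σ = TT * π := ⟨_, rfl⟩
  rw [← hσ] at h2 hS
  obtain ⟨F, hF⟩ : ∃ F : X k → ZMod (2 * k + 1), F = fun w => z w + Vo (π w) := ⟨_, rfl⟩
  obtain ⟨R, hR⟩ : ∃ R : V k → V k → Prop,
      R = fun A B => ∃ w s, A = vtx w s ∧ B = vtx (σ w) (s + F w) := ⟨_, rfl⟩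
  have hR' : ∀ w s B, R (vtx w s) B ↔ B = vtx (σ w) (s + F w) := by
    intro w s B
    rw [hR]
    constructor
    · rintro ⟨w', s', h1, h3⟩
      obtain ⟨rfl, rfl⟩ := vtx_inj h1
      exact h3
    · intro h
      exact ⟨w, s, rfl, h⟩
  have hi1 : ∀ w, σ⁻¹ (σ w) = w := fun w => σ.symm_apply_apply w
  have hi2 : ∀ w, σ (σ⁻¹ w) = w := fun w => σ.apply_symm_apply w
  have hRs : ∀ w s A, R A (vtx w s) ↔ A = vtx (σ⁻¹ w) (s - F (σ⁻¹ w)) := by
    intro w s A
    rw [hR]
    constructor
    · rintro ⟨w', s', h1, h3⟩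
      obtain ⟨rfl, rfl⟩ := vtx_inj h3
      rw [h1, hi1, add_sub_cancel_right]
    · intro h
      refine ⟨_, _, h, ?_⟩
      rw [hi2, sub_add_cancel]
  -- adjacency
  have hadj : ∀ A B, R A B → (oddGraph k).Adj A B := by
    intro A B h
    obtain ⟨w, s, rfl⟩ := vtx_surj A
    rw [hR'] at h
    have h1 : Disjoint (io w s) (io (σ w) (s + F w)) := by
      have h3 := (hleg.1 w).disj s
      have h4 : σ w = TT (π w) := by rw [hσ, Perm.mul_apply]
      have h5 : s + F w = s + z w + Vo (π w) := by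
        rw [hF]
        ring
      rw [h4, h5]
      exact h3
    rw [h]
    refine ⟨?_, h1⟩
    intro h3
    have h4 := congrArg Subtype.val h3
    unfold vtx at h4
    simp only at h4
    rw [← h4] at h1
    have h5 : io w s = ∅ := by
      rw [disjoint_self_iff_empty] at h1
      exact h1
    have h6 := io_card w s
    rw [h5, card_empty] at h6
    omega
  -- no cycle of length two
  have htwo : ∀ A B, R A B → ¬ R B A := by
    intro A B h h'
    obtain ⟨w, s, rfl⟩ := vtx_surj A
    rw [hR'] at h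
    rw [h, hR'] at h'
    obtain ⟨h3, h4⟩ := vtx_inj h'
    have h5 := h2 w h3.symm
    have h6 : σ w = TT w := by rw [hσ, Perm.mul_apply, h5.1]
    have h7 := h2 (σ w) (congrArg σ h3.symm)
    have h8 : σ (σ w) = TT (TT w) := by
      have : σ (σ w) = TT (π (σ w)) := by
        nth_rewrite 1 [hσ]
        rw [Perm.mul_apply]
      rw [this, h7.1, h6]
    have h9 : F w = Vo w := by
      rw [hF]
      simp only
      rw [h5.1, h5.2, zero_add]
    have h10 : F (σ w) = Vo (TT w) := by
      rw [hF]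
      simp only
      rw [h7.1, h7.2, zero_add, h6]
    apply T_two hk w (by rw [← h8]; exact h3.symm)
    rw [h9, h10, add_assoc] at h4
    exact left_eq_add.1 h4
  have hirr : ∀ A, ¬ R A A := fun A h => htwo A A h h
  have hsh : ∀ t A B, R (shift k t A) (shift k t B) ↔ R A B := by
    intro t A B
    obtain ⟨w, s, rfl⟩ := vtx_surj A
    rw [shift_vtx, hR', hR']
    have h1 : vtx (σ w) (s + t + F w) = shift k t (vtx (σ w) (s + F w)) := by
      rw [shift_vtx]
      congr 1
      ring
    rw [h1]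
    exact (shift k t).injective.eq_iff
  refine ⟨symG R hirr, ?_, ?_, ?_, ?_⟩
  · intro A B h
    rcases h with h | h
    · exact hadj A B h
    · exact (hadj B A h).symm
  · intro A
    obtain ⟨w, s, rfl⟩ := vtx_surj A
    have h1 : (symG R hirr).neighborSet (vtx w s) =
        {vtx (σ w) (s + F w), vtx (σ⁻¹ w) (s - F (σ⁻¹ w))} := by
      ext B
      rw [SimpleGraph.mem_neighborSet, symG_adj, hR', hRs]
      rfl
    rw [h1, Nat.card_coe_set_eq, Set.ncard_pair]
    intro h3
    have h4 : R (vtx w s) (vtx (σ w) (s + F w)) := (hR' _ _ _).2 rfl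
    have h5 : R (vtx (σ w) (s + F w)) (vtx w s) := (hRs _ _ _).2 h3
    exact htwo _ _ h4 h5
  · intro t A B
    rw [symG_adj, symG_adj, hsh, hsh]
  · obtain ⟨H, hH⟩ : ∃ H : SimpleGraph (V k), H = symG R hirr := ⟨_, rfl⟩
    rw [← hH]
    have hreach : ∀ (n : ℕ) (r : X k) (s : ZMod (2 * k + 1)),
        ∃ s', H.Reachable (vtx r s') (vtx ((σ ^ n) r) s) := by
      intro n
      induction n with
      | zero => exact fun r s => ⟨s, SimpleGraph.Reachable.refl _⟩
      | succ n ih =>
        intro r s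
        obtain ⟨s', h'⟩ := ih r (s - F ((σ ^ n) r))
        refine ⟨s', h'.trans ?_⟩
        apply SimpleGraph.Adj.reachable
        rw [hH, symG_adj]
        left
        rw [hR', pow_succ', Perm.mul_apply, sub_add_cancel]
    have hreach' : ∀ A, ∃ r ∈ S, ∃ s', H.Reachable (vtx r s') A := by
      intro A
      obtain ⟨w, s, rfl⟩ := vtx_surj A
      obtain ⟨r, hr, hrw⟩ := hS w
      obtain ⟨n, hn⟩ := same_nat hrw
      obtain ⟨s', hs'⟩ := hreach n r s
      rw [hn] at hs'
      exact ⟨r, hr, s', hs'⟩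
    refine ⟨?_, S.image (fun r => vtx r 0), card_image_le, ?_⟩
    swap
    · intro A
      obtain ⟨r, hr, s', h⟩ := hreach' A
      refine ⟨vtx r 0, mem_image_of_mem _ hr, s', ?_⟩
      rw [shift_vtx, zero_add]
      exact h.symm
    have hsurj : Function.Surjective (fun p : {r // r ∈ S} × ZMod (2 * k + 1) =>
        H.connectedComponentMk (vtx p.1.1 p.2)) := by
      intro c
      induction c using SimpleGraph.ConnectedComponent.ind with
      | _ A =>
        obtain ⟨r, hr, s', h⟩ := hreach' A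
        exact ⟨(⟨r, hr⟩, s'), SimpleGraph.ConnectedComponent.sound h⟩
    have h1 := Nat.card_le_card_of_surjective _ hsurj
    have h3 : Nat.card {r // r ∈ S} = S.card := by
      rw [Nat.card_eq_fintype_card, Fintype.card_coe]
    have h4 : Nat.card (ZMod (2 * k + 1)) = 2 * k + 1 := by
      rw [Nat.card_eq_fintype_card, ZMod.card]
    rw [Nat.card_prod, h3, h4, mul_comm] at h1
    exact h1

end Pool.OddHC
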