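import Pool.Agent.Work.MP_8f87b2_h41.FewP
import Pool.Agent.Work.MP_8f87b2_h64.ECount
import Pool.Agent.Work.MP_8f87b2_h2.CntF
import Pool.Agent.Work.MP_8f87b2_tf.Lift

/-!
MP_8f87b2_co: a rotation invariant 2-factor of the odd graph with few classes of cycles.
-/

namespace Pool.OddHC

open Pool.Agent.Work.MP_8f87b2_co Finset Equiv

/-- **ROTATION INVARIANT 2-FACTOR**, all pieces together -/
theorem two_factor {k : ℕ} (hk : 1 ≤ k) : ∃ H : SimpleGraph (V k), H ≤ oddGraph k ∧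
    (∀ A, Nat.card (H.neighborSet A) = 2) ∧
    (∀ t A B, H.Adj (shift k t A) (shift k t B) ↔ H.Adj A B) ∧
    Nat.card H.ConnectedComponent ≤ (2 * k + 1) * (1 + Nat.fib (k - 1) * Nat.fib k) ∧
    ∃ S : Finset (V k), S.card ≤ 1 + Nat.fib (k - 1) * Nat.fib k ∧
      ∀ A, ∃ B ∈ S, ∃ t, H.Reachable A (shift k t B) := by
  obtain ⟨G, hE, hd, hcard⟩ := exists_E_card k
  obtain ⟨π, z, S, hleg, -, h2, hS, hSc⟩ := few_perm G hE hd
  obtain ⟨H, h3, h4, h5, h6, S', h7, h8⟩ := lift_factor hk π z hleg (fun w hw => (h2 w hw).1) S hS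
  have h9 : S.card ≤ 1 + Nat.fib (k - 1) * Nat.fib k :=
    hSc.trans (hcard.trans (Cnt2.sum_NB hk))
  exact ⟨H, h3, h4, h5, h6.trans (Nat.mul_le_mul_left _ h9), S', h7.trans h9, h8⟩

end Pool.OddHC
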